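import Pool.Agent.H445.MJ.Fin

/-!
# MP_47914d_nt: the exact dimension of the set of the counterexamples to the modular Schanuel conjecture

Let `F(n,m)` be the set of the `n`-tuples `z` of points of the upper half-plane which are not CM
points, pairwise inequivalent under `GL₂⁺(ℚ)`, and for which the transcendence degree of `ℚ(z, j(z))`
is at most `n - m`. The conjecture says that `F(n,m)` is empty for `m ≥ 1`; for these `m` it is the set
of the counterexamples of defect at least `m`. We prove the following unconditional relation between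
the size of these sets and the existence of counterexamples of larger defect.

* The Hausdorff dimension of `F(n,m)` in `ℂ^n` is exactly `2 d`, where `d` is the largest number for
  which `F(n - d, m + d)` is not empty (`0` if `F(n,m)` is empty).
* `d ≤ (n - m - 1) / 2`, by Schneider's theorem.
* `F(n,m)` is countable if and only if `F(n - 1, m + 1)` is empty. In particular `F(n,m)` is
  countable for `n ≤ m + 2`: all but countably many pairs of inequivalent non-CM points satisfy
  `trdeg ≥ 3`, all but countably many triples `trdeg ≥ 3`.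
* `F(n, m + d + 1)` is empty for all `n` if and only if for all `n` the Hausdorff dimension of `F(n,m)`
  is at most `2 d`. For `m = d = 0`: the conjecture holds if and only if for every `n` there are only
  countably many `n`-tuples as above with `trdeg ℚ(z, j(z)) ≤ n`. For `m = 1`: the inequality
  `trdeg ≥ n - d - 1` holds for all `n` and all such `z` if and only if the set of all counterexamples
  `F(n,1)` has dimension at most `2 d` for all `n`.
* The first two equalities are true relative to an arbitrary finite set `P` of complex numbers: instead of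
  `trdeg ℚ(z, j(z)) ≤ n - m` we may consider `trdeg ℚ(P, z, j(z)) ≤ n + c - m`, `c` fixed.

## The proof (in `Pool.Agent.H445.MJ`)

The main tool is a proof of the full theorem of Ax-Schanuel type for `j` (Pila-Tsimerman) in a
pointwise form, for derivations of `ℂ` and several points of the upper half-plane (`RankJ`, `ChainJ`):
if `D` runs through a space of derivations which respect the differential equations of `j` at the
points `τ_1, …, τ_s`, the points are pairwise inequivalent under `GL₂⁺(ℚ)` and no `τ_i` is killed by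
all `D`, then the numbers `τ_i, j, j', j''` have rank at least `3 s + δ` (and `τ_i, j` at least `s + δ`)
over the constants, `δ` the dimension of the space of the vectors `(D τ_i)`. The case of two
points with algebraically dependent `j`'s is a local-global argument at the places of the function
field over the cusp (`Loc`, `Glob`, `Van`, `PairIA`). Let `K` be a countable field which is closed
under everything in sight. The points `z` with a given `δ` over `K` have Hausdorff dimension at most
`2 δ` (`DimB`), and the coordinates of `z` in `K` are a failure of defect `m + δ` of length at most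
`n - δ` (`RedJ`); algebraic points may be added (`AlgPt`, `DimJ`). Conversely, `d` generic points may
be added to a failure of defect `m + d`.
-/

set_option autoImplicit false

open Set

noncomputable section

namespace Pool.Agent.Results.MP_47914d_nt.DimensionFormula

open Pool.Agent.H445.MJ (FJ LevJ FailJ SgS Sg dimJ countableJ lowerJ LevJ_down LevJ_bdd trdeg_iff)

/-- The lattice `ℤ + ℤ τ`. -/
def lattice (τ : ℂ) (h : 0 < τ.im) : PeriodPair where
  ω₁ := 1
  ω₂ := τ
  indep := (Pool.Agent.Y685.LL ⟨τ, h⟩).indep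

/-- The modular invariant `j = 1728 g₂³ / (g₂³ - 27 g₃²)` on the upper half-plane. -/
def j (τ : ℂ) : ℂ :=
  if h : 0 < τ.im then 1728 * (lattice τ h).g₂ ^ 3 / ((lattice τ h).g₂ ^ 3 - 27 * (lattice τ h).g₃ ^ 2) else 0

/-- `z` is a CM point. -/
def IsCM (z : ℂ) : Prop :=
  ∃ a b c : ℤ, (a ≠ 0 ∨ b ≠ 0 ∨ c ≠ 0) ∧ (a : ℂ) * z ^ 2 + (b : ℂ) * z + (c : ℂ) = 0

/-- `w = (a z + b) / (c z + d)` for a matrix in `GL₂⁺(ℚ)`. -/
def Equivalent (z w : ℂ) : Prop :=
  ∃ a b c d : ℚ, 0 < a * d - b * c ∧ w * ((c : ℂ) * z + (d : ℂ)) = (a : ℂ) * z + (b : ℂ)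

/-- The numbers `zᵢ, j(zᵢ)`. -/
def numbers {n : ℕ} (z : Fin n → ℂ) : Set ℂ := {x | ∃ i, x = z i ∨ x = j (z i)}

/-- The `n`-tuples of pairwise inequivalent points of the upper half-plane, none of them a CM point,
with `trdeg ℚ(P, z, j(z)) + m ≤ n + c`. -/
def RelFails (P : Set ℂ) (c n m : ℕ) : Set (Fin n → ℂ) :=
  {z | (∀ i, 0 < (z i).im) ∧ (∀ i, ¬ IsCM (z i)) ∧ (∀ i k, i ≠ k → ¬ Equivalent (z i) (z k)) ∧
    Algebra.trdeg ℚ (IntermediateField.adjoin ℚ (P ∪ numbers z)) + m ≤ ((n + c : ℕ) : Cardinal)}

/-- The `n`-tuples of pairwise inequivalent points of the upper half-plane, none of them a CM point,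
with `trdeg ℚ(z, j(z)) + m ≤ n`. -/
def Fails (n m : ℕ) : Set (Fin n → ℂ) :=
  {z | (∀ i, 0 < (z i).im) ∧ (∀ i, ¬ IsCM (z i)) ∧ (∀ i k, i ≠ k → ¬ Equivalent (z i) (z k)) ∧
    Algebra.trdeg ℚ (IntermediateField.adjoin ℚ (numbers z)) + m ≤ (n : Cardinal)}

/-- The largest `d ≤ n` such that `F(n - d, m + d)` is not empty (zero if there is none). -/
def level (n m : ℕ) : ℕ := sSup {d | d ≤ n ∧ (Fails (n - d) (m + d)).Nonempty}

theorem j_eq {τ : ℂ} (h : 0 < τ.im) : j τ = Pool.Agent.Y776.jf τ := by
  have h1 : Pool.Agent.Y685.LC τ = lattice τ h := by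
    rw [Pool.Agent.Y685.LC, UpperHalfPlane.ofComplex_apply_of_im_pos h]
    rfl
  rw [j, dif_pos h, Pool.Agent.Y776.jf, h1]

theorem numbers_eq {n : ℕ} {z : Fin n → ℂ} (hz : ∀ i, 0 < (z i).im) : numbers z = SgS false (range z) := by
  ext x
  simp only [numbers, SgS, Sg, mem_ofPred_eq, mem_iUnion, mem_range, exists_prop, exists_exists_eq_and,
    mem_insert_iff, mem_singleton_iff]
  exact exists_congr fun i => by rw [j_eq (hz i)]

theorem RelFails_eq (P : Set ℂ) (c n m : ℕ) : RelFails P c n m = FJ false P c n m := by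
  ext z
  constructor
  · rintro ⟨h1, h2, h3, h4⟩
    refine ⟨h1, h2, h3, ?_⟩
    have h5 := (trdeg_iff m (n + c)).1 h4
    rw [numbers_eq h1] at h5
    simpa [Pool.Agent.H445.MJ.rr] using h5
  · rintro ⟨h1, h2, h3, h4⟩
    refine ⟨h1, h2, h3, ?_⟩
    refine (trdeg_iff m (n + c)).2 ?_
    rw [numbers_eq h1]
    simpa [Pool.Agent.H445.MJ.rr] using h4

theorem Fails_eq (n m : ℕ) : Fails n m = FJ false ∅ 0 n m := by
  ext z
  constructor
  · rintro ⟨h1, h2, h3, h4⟩
    refine ⟨h1, h2, h3, ?_⟩
    have h5 := (trdeg_iff m n).1 h4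
    rw [numbers_eq h1] at h5
    simpa [Pool.Agent.H445.MJ.rr] using h5
  · rintro ⟨h1, h2, h3, h4⟩
    refine ⟨h1, h2, h3, ?_⟩
    refine (trdeg_iff m n).2 ?_
    rw [numbers_eq h1]
    simpa [Pool.Agent.H445.MJ.rr] using h4

theorem Lev_eq (n m : ℕ) : LevJ false ∅ 0 n m = {d | d ≤ n ∧ (Fails (n - d) (m + d)).Nonempty} := by
  ext d
  rw [mem_ofPred_eq, Fails_eq]
  rfl

theorem dim_eq (n m : ℕ) : dimH (Fails n m) = (2 * level n m : ℕ) := by
  rw [Fails_eq, level, ← Lev_eq]
  exact dimJ Set.finite_empty

theorem lower {n m d : ℕ} (hd : d ≤ n) (h : (Fails (n - d) (m + d)).Nonempty) :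
    ((2 * d : ℕ) : ENNReal) ≤ dimH (Fails n m) := by
  rw [Fails_eq]
  apply lowerJ
  rw [Lev_eq]
  exact ⟨hd, h⟩

theorem mono {n m m' : ℕ} (h : m ≤ m') {z : Fin n → ℂ} (hz : z ∈ Fails n m') : z ∈ Fails n m := by
  rw [Fails_eq] at hz ⊢
  exact FailJ.mono h hz

theorem bound {n m : ℕ} (hn : 0 < n) {z : Fin n → ℂ} (hz : z ∈ Fails n m) : m + 1 ≤ n := by
  rw [Fails_eq] at hz
  have := FailJ.bound hz hn
  simpa [Pool.Agent.H445.MJ.rr] using this

theorem bound0 {m : ℕ} {z : Fin 0 → ℂ} (hz : z ∈ Fails 0 m) : m = 0 := by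
  have h1 := hz.2.2.2
  have h2 : (m : Cardinal) ≤ ((0 : ℕ) : Cardinal) := (self_le_add_left _ _).trans h1
  have h3 : m ≤ 0 := by exact_mod_cast h2
  omega

theorem bdd {n : ℕ} {P : ℕ → Prop} : BddAbove {d | d ≤ n ∧ P d} := ⟨n, fun _ h => h.1⟩

theorem bound' {n m d : ℕ} (hd : d ≤ n) {z : Fin (n - d) → ℂ} (hz : z ∈ Fails (n - d) (m + d)) :
    d ≤ (n - m - 1) / 2 := by
  rcases Nat.eq_zero_or_pos (n - d) with h0 | h0
  · have h3 : m + d = 0 := by
      revert z
      rw [h0]
      exact fun hz => bound0 hz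
    omega
  · have := bound h0 hz
    omega

theorem level_le (n m : ℕ) : level n m ≤ (n - m - 1) / 2 := by
  rcases Set.eq_empty_or_nonempty {d | d ≤ n ∧ (Fails (n - d) (m + d)).Nonempty} with h | h
  · rw [level, h, csSup_empty]
    exact Nat.zero_le _
  · obtain ⟨h1, z, hz⟩ := Nat.sSup_mem h bdd
    exact bound' h1 hz

theorem countable_iff {n m : ℕ} (hn : 1 ≤ n) : (Fails n m).Countable ↔ Fails (n - 1) (m + 1) = ∅ := by
  rw [Fails_eq, countableJ Set.finite_empty, Lev_eq]
  constructor
  · intro h
    by_contra hne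
    exact h ⟨hn, nonempty_iff_ne_empty.2 hne⟩
  · rintro h ⟨-, h2⟩
    rw [h] at h2
    exact not_nonempty_empty h2

theorem error_iff (m d : ℕ) :
    (∀ n, Fails n (m + d + 1) = ∅) ↔ ∀ n, dimH (Fails n m) ≤ (2 * d : ℕ) := by
  constructor
  · intro h n
    rw [dim_eq]
    have h1 : level n m ≤ d := by
      rcases Set.eq_empty_or_nonempty {e | e ≤ n ∧ (Fails (n - e) (m + e)).Nonempty} with h0 | h0
      · rw [level, h0, csSup_empty]
        exact Nat.zero_le _
      · obtain ⟨h1, z, hz⟩ := Nat.sSup_mem h0 bdd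
        by_contra hcon
        have h2 := mono (m := m + d + 1) (by
          change m + d + 1 ≤ m + level n m
          omega) hz
        rw [h] at h2
        exact h2
    exact_mod_cast Nat.mul_le_mul_left 2 h1
  · intro h s
    by_contra hne
    have h1 := lower (n := s + (d + 1)) (m := m) (d := d + 1) (by omega) (by
      rw [Nat.add_sub_cancel, ← add_assoc]
      exact nonempty_iff_ne_empty.2 hne)
    have h2 := h1.trans (h (s + (d + 1)))
    have h3 : 2 * (d + 1) ≤ 2 * d := by exact_mod_cast h2
    omega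

theorem result :
    -- the dimension
    (∀ n m : ℕ, dimH (Fails n m) = (2 * level n m : ℕ) ∧ level n m ≤ (n - m - 1) / 2) ∧
    -- countability
    (∀ n m : ℕ, 1 ≤ n → ((Fails n m).Countable ↔ Fails (n - 1) (m + 1) = ∅)) ∧
    (∀ n m : ℕ, n ≤ m + 2 → (Fails n m).Countable) ∧
    -- the conjecture, and the conjecture with bounded error
    (∀ m d : ℕ, (∀ n, Fails n (m + d + 1) = ∅) ↔ ∀ n, dimH (Fails n m) ≤ (2 * d : ℕ)) ∧
    (∀ m : ℕ, (∀ n, Fails n (m + 1) = ∅) ↔ ∀ n, (Fails n m).Countable) ∧
    -- relative to a finite set of numbers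
    (∀ P : Set ℂ, P.Finite → ∀ c n m : ℕ,
      dimH (RelFails P c n m) =
        (2 * sSup {d | d ≤ n ∧ (RelFails P c (n - d) (m + d)).Nonempty} : ℕ) ∧
      (1 ≤ n → ((RelFails P c n m).Countable ↔ RelFails P c (n - 1) (m + 1) = ∅))) := by
  refine ⟨fun n m => ⟨dim_eq n m, level_le n m⟩, fun n m hn => countable_iff hn, fun n m h => ?_, error_iff,
    fun m => ?_, ?_⟩
  · rcases Nat.eq_zero_or_pos n with rfl | hn
    · exact Set.countable_univ.mono (subset_univ _)
    rw [countable_iff hn, Set.eq_empty_iff_forall_notMem]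
    intro z hz
    have := bound' (n := n) (d := 1) hn hz
    omega
  · constructor
    · intro h n
      rcases Nat.eq_zero_or_pos n with rfl | hn
      · exact Set.countable_univ.mono (subset_univ _)
      · exact (countable_iff hn).2 (h (n - 1))
    · intro h n
      exact (countable_iff (n := n + 1) (m := m) (by omega)).1 (h (n + 1))
  · intro P hP c n m
    have h1 : LevJ false P c n m = {d | d ≤ n ∧ (RelFails P c (n - d) (m + d)).Nonempty} := by
      ext d
      rw [mem_ofPred_eq, RelFails_eq]
      rfl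
    rw [RelFails_eq, ← h1]
    refine ⟨dimJ hP, fun hn => ?_⟩
    rw [countableJ hP, h1]
    constructor
    · intro h
      by_contra hne
      exact h ⟨hn, nonempty_iff_ne_empty.2 hne⟩
    · rintro h ⟨-, h2⟩
      rw [h] at h2
      exact not_nonempty_empty h2

end Pool.Agent.Results.MP_47914d_nt.DimensionFormula
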